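import Pool.Agent.Lib.MP_b1a3a4_al.MVS.LG.Iface

/-!
# Project MVS, part IV, module KAP (12.15): normalization of functions of `n` variables
-/

set_option linter.all false

namespace Pool.Agent.Lib.MP_b1a3a4_al.MVS.LG.H63

open Function

section basic

variable {n : ℕ} {K : Fin n → Type} [∀ j, Group (K j)] {Ω : Type}

/-- the combination of values of `v` entering in the normalization -/
noncomputable def Lv (a b : ∀ j, K j) (j : Fin n) (v : (∀ j, K j) → L2 Ω) (x : ∀ j, K j) : L2 Ω :=
  (4 : ℝ) • v (update x j 1) - v (update x j (a j)) - v (update x j (a j)⁻¹) -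
    v (update x j (b j)) - v (update x j (b j)⁻¹)

theorem kap1_eq (α : ∀ j, K j →* Equiv.Perm Ω) (D : Fin n → L2 Ω →L[ℝ] L2 Ω)
    (a b : ∀ j, K j) (j : Fin n) (v : (∀ j, K j) → L2 Ω) (x : ∀ j, K j) :
    kap1 α D a b j v x = v x - (tr (α j (x j)) (D j (Lv a b j v x)) - D j (Lv a b j v x)) := rfl

theorem Lv_update (a b : ∀ j, K j) (j : Fin n) (v : (∀ j, K j) → L2 Ω) (x : ∀ j, K j) (g : K j) :
    Lv a b j v (update x j g) = Lv a b j v x := by
  unfold Lv
  simp only [update_idem]

/-- `v` is inner in the variable `j`. -/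
def Inn (α : ∀ j, K j →* Equiv.Perm Ω) (j : Fin n) (v : (∀ j, K j) → L2 Ω) : Prop :=
  ∃ c : (∀ j, K j) → L2 Ω, (∀ x g, c (update x j g) = c x) ∧
    ∀ x, v x = tr (α j (x j)) (c x) - c x

theorem inn_sub_kap1 (α : ∀ j, K j →* Equiv.Perm Ω) (D : Fin n → L2 Ω →L[ℝ] L2 Ω)
    (a b : ∀ j, K j) (j : Fin n) (v : (∀ j, K j) → L2 Ω) :
    Inn α j (fun x => v x - kap1 α D a b j v x) := by
  refine ⟨fun x => D j (Lv a b j v x), fun x g => by simp only [Lv_update], fun x => ?_⟩
  simp only [kap1_eq, sub_sub_cancel]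

theorem Lv_inn {α : ∀ j, K j →* Equiv.Perm Ω} (a b : ∀ j, K j) {j : Fin n}
    {v c : (∀ j, K j) → L2 Ω} (hc : ∀ x g, c (update x j g) = c x)
    (hv : ∀ x, v x = tr (α j (x j)) (c x) - c x) (x : ∀ j, K j) :
    Lv a b j v x = Lap (α j) (a j) (b j) (c x) := by
  have h1 : v (update x j 1) = 0 := by
    rw [hv, hc, update_self, map_one, tr_one, sub_self]
  have h2 : ∀ g, v (update x j g) = tr (α j g) (c x) - c x := by
    intro g
    rw [hv, hc, update_self]
  unfold Lv Lap
  rw [h1, h2, h2, h2, h2]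
  simp only [ContinuousLinearMap.sub_apply, ContinuousLinearMap.smul_apply,
    ContinuousLinearMap.id_apply, smul_zero]
  module

theorem kap1_inn {α : ∀ j, K j →* Equiv.Perm Ω} {D : Fin n → L2 Ω →L[ℝ] L2 Ω}
    {a b : ∀ j, K j} (h : KapData α D a b) {j : Fin n} {v : (∀ j, K j) → L2 Ω}
    (hv : Inn α j v) : kap1 α D a b j v = fun _ => 0 := by
  obtain ⟨c, hc, hv⟩ := hv
  funext x
  rw [kap1_eq, Lv_inn a b hc hv, h.left, hv, sub_self]

theorem Lv_add (a b : ∀ j, K j) (j : Fin n) (v w : (∀ j, K j) → L2 Ω) (x : ∀ j, K j) :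
    Lv a b j (fun x => v x + w x) x = Lv a b j v x + Lv a b j w x := by
  unfold Lv
  module

theorem kap1_add (α : ∀ j, K j →* Equiv.Perm Ω) (D : Fin n → L2 Ω →L[ℝ] L2 Ω)
    (a b : ∀ j, K j) (j : Fin n) (v w : (∀ j, K j) → L2 Ω) :
    kap1 α D a b j (fun x => v x + w x) = fun x => kap1 α D a b j v x + kap1 α D a b j w x := by
  funext x
  rw [kap1_eq, kap1_eq, kap1_eq, Lv_add, map_add, map_add]
  abel

theorem kap1_zero (α : ∀ j, K j →* Equiv.Perm Ω) (D : Fin n → L2 Ω →L[ℝ] L2 Ω)
    (a b : ∀ j, K j) (j : Fin n) : kap1 α D a b j (fun _ => 0) = fun _ => (0 : L2 Ω) := by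
  funext x
  have : Lv a b j (fun _ => (0 : L2 Ω)) x = 0 := by
    unfold Lv
    module
  rw [kap1_eq, this, map_zero, map_zero, sub_zero, sub_zero]

/-- foldr over a list -/
noncomputable def kapL (α : ∀ j, K j →* Equiv.Perm Ω) (D : Fin n → L2 Ω →L[ℝ] L2 Ω)
    (a b : ∀ j, K j) (l : List (Fin n)) (v : (∀ j, K j) → L2 Ω) : (∀ j, K j) → L2 Ω :=
  l.foldr (fun j v => kap1 α D a b j v) v

theorem kapL_nil (α : ∀ j, K j →* Equiv.Perm Ω) (D : Fin n → L2 Ω →L[ℝ] L2 Ω)
    (a b : ∀ j, K j) (v : (∀ j, K j) → L2 Ω) : kapL α D a b [] v = v := rfl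

theorem kapL_cons (α : ∀ j, K j →* Equiv.Perm Ω) (D : Fin n → L2 Ω →L[ℝ] L2 Ω)
    (a b : ∀ j, K j) (j : Fin n) (l : List (Fin n)) (v : (∀ j, K j) → L2 Ω) :
    kapL α D a b (j :: l) v = kap1 α D a b j (kapL α D a b l v) := rfl

theorem kapL_zero (α : ∀ j, K j →* Equiv.Perm Ω) (D : Fin n → L2 Ω →L[ℝ] L2 Ω)
    (a b : ∀ j, K j) (l : List (Fin n)) : kapL α D a b l (fun _ => 0) = fun _ => (0 : L2 Ω) := by
  induction l with
  | nil => rfl
  | cons j l ih => rw [kapL_cons, ih, kap1_zero]

theorem kapL_add (α : ∀ j, K j →* Equiv.Perm Ω) (D : Fin n → L2 Ω →L[ℝ] L2 Ω)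
    (a b : ∀ j, K j) (l : List (Fin n)) (v w : (∀ j, K j) → L2 Ω) :
    kapL α D a b l (fun x => v x + w x) = fun x => kapL α D a b l v x + kapL α D a b l w x := by
  induction l with
  | nil => rfl
  | cons j l ih => rw [kapL_cons, ih, kap1_add]; rfl

theorem kapL_sum (α : ∀ j, K j →* Equiv.Perm Ω) (D : Fin n → L2 Ω →L[ℝ] L2 Ω)
    (a b : ∀ j, K j) (l : List (Fin n)) {ι : Type} (s : Finset ι)
    (v : ι → (∀ j, K j) → L2 Ω) :
    kapL α D a b l (fun x => ∑ i ∈ s, v i x) = fun x => ∑ i ∈ s, kapL α D a b l (v i) x := by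
  classical
  induction s using Finset.induction with
  | empty => simp only [Finset.sum_empty]; exact kapL_zero α D a b l
  | insert i s hi ih =>
    simp only [Finset.sum_insert hi]
    rw [kapL_add, ih]

theorem tr_comm' {σ τ : Equiv.Perm Ω} (h : σ * τ = τ * σ) (ξ : L2 Ω) :
    tr σ (tr τ ξ) = tr τ (tr σ ξ) := by
  rw [← tr_mul, h, tr_mul]

theorem D_comm {α : ∀ j, K j →* Equiv.Perm Ω} {D : Fin n → L2 Ω →L[ℝ] L2 Ω}
    {a b : ∀ j, K j} (h : KapData α D a b) {i j : Fin n} (hij : i ≠ j) (g : K i) (ξ : L2 Ω) :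
    D j (tr (α i g) ξ) = tr (α i g) (D j ξ) := by
  have key : ∀ ζ, Lap (α j) (a j) (b j) (tr (α i g) ζ) = tr (α i g) (Lap (α j) (a j) (b j) ζ) := by
    intro ζ
    unfold Lap
    simp only [ContinuousLinearMap.sub_apply, ContinuousLinearMap.smul_apply,
      ContinuousLinearMap.id_apply, map_sub, map_smul]
    rw [tr_comm' (h.comm i j hij g (a j)).symm, tr_comm' (h.comm i j hij g (a j)⁻¹).symm,
      tr_comm' (h.comm i j hij g (b j)).symm, tr_comm' (h.comm i j hij g (b j)⁻¹).symm]
  calc D j (tr (α i g) ξ) = D j (tr (α i g) (Lap (α j) (a j) (b j) (D j ξ))) := by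
        rw [h.right]
    _ = D j (Lap (α j) (a j) (b j) (tr (α i g) (D j ξ))) := by rw [key]
    _ = tr (α i g) (D j ξ) := h.left _ _

theorem kap1_inn_ne {α : ∀ j, K j →* Equiv.Perm Ω} {D : Fin n → L2 Ω →L[ℝ] L2 Ω}
    {a b : ∀ j, K j} (h : KapData α D a b) {i j : Fin n} (hij : i ≠ j)
    {v : (∀ j, K j) → L2 Ω} (hv : Inn α i v) : Inn α i (kap1 α D a b j v) := by
  obtain ⟨c, hc, hv⟩ := hv
  have hu : ∀ (x : ∀ j, K j) (g : K i) (s : K j), update (update x i g) j s =
      update (update x j s) i g := fun x g s => (update_comm hij g s x)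
  refine ⟨kap1 α D a b j c, ?_, ?_⟩
  · intro x g
    have h1 : Lv a b j c (update x i g) = Lv a b j c x := by
      unfold Lv
      rw [hu, hu, hu, hu, hu, hc, hc, hc, hc, hc]
    rw [kap1_eq, kap1_eq, h1, hc, update_of_ne hij.symm]
  · intro x
    have h1 : ∀ s : K j, v (update x j s) = tr (α i (x i)) (c (update x j s)) -
        c (update x j s) := by
      intro s
      rw [hv, update_of_ne hij]
    have h2 : Lv a b j v x = tr (α i (x i)) (Lv a b j c x) - Lv a b j c x := by
      unfold Lv
      rw [h1, h1, h1, h1, h1]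
      simp only [map_sub, map_smul]
      module
    rw [kap1_eq, kap1_eq, h2, hv]
    simp only [map_sub]
    rw [D_comm h hij, tr_comm' (h.comm i j hij (x i) (x j)).symm]
    abel

theorem kapL_inn_ne {α : ∀ j, K j →* Equiv.Perm Ω} {D : Fin n → L2 Ω →L[ℝ] L2 Ω}
    {a b : ∀ j, K j} (h : KapData α D a b) {i : Fin n} (l : List (Fin n)) (hl : i ∉ l)
    {v : (∀ j, K j) → L2 Ω} (hv : Inn α i v) : Inn α i (kapL α D a b l v) := by
  induction l with
  | nil => exact hv
  | cons j l ih =>
    rw [kapL_cons]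
    rw [List.mem_cons, not_or] at hl
    exact kap1_inn_ne h hl.1 (ih hl.2)

theorem kapL_inn {α : ∀ j, K j →* Equiv.Perm Ω} {D : Fin n → L2 Ω →L[ℝ] L2 Ω}
    {a b : ∀ j, K j} (h : KapData α D a b) {i : Fin n} (l : List (Fin n)) (hl : i ∈ l)
    {v : (∀ j, K j) → L2 Ω} (hv : Inn α i v) : kapL α D a b l v = fun _ => 0 := by
  induction l with
  | nil => simp at hl
  | cons j l ih =>
    rw [kapL_cons]
    by_cases hil : i ∈ l
    · rw [ih hil, kap1_zero]
    · have : i = j := by
        rcases List.mem_cons.1 hl with h1 | h1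
        · exact h1
        · exact absurd h1 hil
      subst this
      exact kap1_inn h (kapL_inn_ne h l hil hv)

theorem PI_of_inn {α : ∀ j, K j →* Equiv.Perm Ω} {i : Fin n} {v : (∀ j, K j) → L2 Ω}
    (hv : Inn α i v) : PI α v := by
  obtain ⟨c, hc, hv⟩ := hv
  refine ⟨fun j => if j = i then c else fun _ => 0, ?_, ?_⟩
  · intro j x g
    by_cases h : j = i
    · subst h; simp [hc]
    · simp [h]
  · intro x
    rw [Finset.sum_eq_single i, hv]
    · simp
    · intro j _ hj
      simp [hj]
    · intro h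
      exact absurd (Finset.mem_univ i) h

theorem PI_add {α : ∀ j, K j →* Equiv.Perm Ω} {v w : (∀ j, K j) → L2 Ω}
    (hv : PI α v) (hw : PI α w) : PI α (fun x => v x + w x) := by
  obtain ⟨c, hc, hv⟩ := hv
  obtain ⟨d, hd, hw⟩ := hw
  refine ⟨fun j x => c j x + d j x, ?_, ?_⟩
  · intro j x g
    simp only [hc, hd]
  · intro x
    simp only [hv, hw, map_add]
    rw [← Finset.sum_add_distrib]
    apply Finset.sum_congr rfl
    intro j _
    abel

theorem PI_zero {α : ∀ j, K j →* Equiv.Perm Ω} : PI α (fun _ => (0 : L2 Ω)) := by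
  refine ⟨fun _ _ => 0, fun _ _ _ => rfl, fun x => ?_⟩
  simp

theorem PI_sub_kapL (α : ∀ j, K j →* Equiv.Perm Ω) (D : Fin n → L2 Ω →L[ℝ] L2 Ω)
    (a b : ∀ j, K j) (l : List (Fin n)) (v : (∀ j, K j) → L2 Ω) :
    PI α (fun x => v x - kapL α D a b l v x) := by
  induction l with
  | nil =>
    have : (fun x => v x - kapL α D a b [] v x) = fun _ => (0 : L2 Ω) := by
      funext x
      rw [kapL_nil, sub_self]
    rw [this]
    exact PI_zero
  | cons j l ih =>
    have h1 := PI_add ih (PI_of_inn (inn_sub_kap1 α D a b j (kapL α D a b l v)))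
    have : (fun x => v x - kapL α D a b (j :: l) v x) = fun x => (v x - kapL α D a b l v x) +
        (kapL α D a b l v x - kap1 α D a b j (kapL α D a b l v) x) := by
      funext x
      rw [kapL_cons]; abel
    rw [this]
    exact h1

theorem kap_iff {α : ∀ j, K j →* Equiv.Perm Ω} {D : Fin n → L2 Ω →L[ℝ] L2 Ω}
    {a b : ∀ j, K j} (h : KapData α D a b) (v : (∀ j, K j) → L2 Ω) :
    (∀ x, kap α D a b v x = 0) ↔ PI α v := by
  constructor
  · intro h0
    have := PI_sub_kapL α D a b (List.finRange n) v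
    have e : (fun x => v x - kapL α D a b (List.finRange n) v x) = v := by
      funext x
      have := h0 x
      change v x - kap α D a b v x = v x
      rw [this, sub_zero]
    rwa [e] at this
  · rintro ⟨c, hc, hv⟩ x
    have e : v = fun x => ∑ j, (tr (α j (x j)) (c j x) - c j x) := funext hv
    change kapL α D a b (List.finRange n) v x = 0
    rw [e, kapL_sum]
    apply Finset.sum_eq_zero
    intro j _
    rw [kapL_inn h (List.finRange n) (List.mem_finRange j) ⟨c j, hc j, fun x => rfl⟩]

theorem kapL_tendsto (α : ∀ j, K j →* Equiv.Perm Ω) (D : Fin n → L2 Ω →L[ℝ] L2 Ω)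
    (a b : ∀ j, K j) (l : List (Fin n)) (V : ℕ → (∀ j, K j) → L2 Ω) (v : (∀ j, K j) → L2 Ω)
    (hV : ∀ x, Filter.Tendsto (fun i => V i x) Filter.atTop (nhds (v x))) :
    ∀ x, Filter.Tendsto (fun i => kapL α D a b l (V i) x) Filter.atTop
      (nhds (kapL α D a b l v x)) := by
  induction l with
  | nil => exact hV
  | cons j l ih =>
    intro x
    simp only [kapL_cons, kap1_eq]
    have h1 : Filter.Tendsto (fun i => Lv a b j (kapL α D a b l (V i)) x) Filter.atTop
        (nhds (Lv a b j (kapL α D a b l v) x)) := by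
      unfold Lv
      exact (((((ih _).const_smul (4 : ℝ)).sub (ih _)).sub (ih _)).sub (ih _)).sub (ih _)
    have h2 := ((D j).continuous.tendsto _).comp h1
    have h3 := ((tr (α j (x j))).continuous.tendsto _).comp h2
    exact (ih x).sub (h3.sub h2)

end basic

theorem kap : KapStatement := by
  refine ⟨?_, ?_, ?_, ?_⟩
  · intro n K _ Ω α D a b h
    refine ⟨kap_iff h, ?_⟩
    intro V v hV hPI
    rw [← kap_iff h]
    intro x
    have h1 := kapL_tendsto α D a b (List.finRange n) V v hV x
    have h2 : ∀ i, kapL α D a b (List.finRange n) (V i) x = 0 := fun i =>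
      (kap_iff h (V i)).2 (hPI i) x
    simp only [h2] at h1
    exact tendsto_nhds_unique h1 tendsto_const_nhds
  · intro n K _ Ω Ω' α α' D D' a b h h' Q hQ v x
    have hL : ∀ j ξ, Q (Lap (α j) (a j) (b j) ξ) = Lap (α' j) (a j) (b j) (Q ξ) := by
      intro j ξ
      unfold Lap
      simp only [ContinuousLinearMap.sub_apply, ContinuousLinearMap.smul_apply,
        ContinuousLinearMap.id_apply, map_sub, map_smul, hQ]
    have hD : ∀ j ξ, D' j (Q ξ) = Q (D j ξ) := by
      intro j ξ
      have h1 := hL j (D j ξ)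
      rw [h.right] at h1
      rw [h1, h'.left]
    have key : ∀ (l : List (Fin n)), kapL α' D' a b l (fun x => Q (v x)) =
        fun x => Q (kapL α D a b l v x) := by
      intro l
      induction l with
      | nil => rfl
      | cons j l ih =>
        rw [kapL_cons, ih]
        funext x
        rw [kapL_cons, kap1_eq, kap1_eq]
        have h1 : Lv a b j (fun x => Q (kapL α D a b l v x)) x =
            Q (Lv a b j (kapL α D a b l v) x) := by
          unfold Lv
          simp only [map_sub, map_smul]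
        rw [h1, hD, map_sub, map_sub, hQ]
    exact congrFun (key (List.finRange n)) x
  · intro n K K' _ _ ι Ω α D a b v x
    have hu : ∀ (x : ∀ j, K' j) (j : Fin n) (g : K' j),
        (fun i => ι i (update x j g i)) = update (fun i => ι i (x i)) j (ι j g) := by
      intro x j g
      funext i
      by_cases h : i = j
      · subst h; simp
      · simp [update_of_ne h]
    have key : ∀ (l : List (Fin n)), kapL (fun j => (α j).comp (ι j)) D a b l
        (fun x => v (fun j => ι j (x j))) =
        fun x => kapL α D (fun j => ι j (a j)) (fun j => ι j (b j)) l v (fun j => ι j (x j)) := by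
      intro l
      induction l with
      | nil => rfl
      | cons j l ih =>
        rw [kapL_cons, ih]
        funext x
        rw [kapL_cons, kap1_eq, kap1_eq]
        have h1 : Lv a b j (fun x => kapL α D (fun j => ι j (a j)) (fun j => ι j (b j)) l v
            (fun j => ι j (x j))) x = Lv (fun j => ι j (a j)) (fun j => ι j (b j)) j
            (kapL α D (fun j => ι j (a j)) (fun j => ι j (b j)) l v) (fun j => ι j (x j)) := by
          unfold Lv
          beta_reduce
          rw [hu, hu, hu, hu, hu, map_one, map_inv, map_inv]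
        rw [h1]
        rfl
    exact congrFun (key (List.finRange n)) x
  · intro n L _ D a b h w hw
    have hlm : ∀ (i : Fin n) (g : L i) (ξ : L2 (∀ j, L j)),
        lm (Pi.mulSingle i g) ξ = tr (lmJ L i g) ξ := fun i g ξ => rfl
    have key : ∀ (l : List (Fin n)), MDer (kapL (lmJ L) D a b l w) := by
      intro l
      induction l with
      | nil => exact hw
      | cons j l ih =>
        rw [kapL_cons]
        intro i x g g'
        rw [kap1_eq, kap1_eq, kap1_eq, hlm]
        by_cases hij : i = j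
        · subst hij
          rw [Lv_update, Lv_update, Lv_update, ih i x g g', update_self, update_self,
            update_self, map_mul, tr_mul, hlm]
          simp only [map_sub]
          abel
        · have hu : ∀ (g : L i) (s : L j), update (update x i g) j s =
            update (update x j s) i g := fun g s => (update_comm hij g s x)
          have h1 : Lv a b j (kapL (lmJ L) D a b l w) (update x i (g * g')) =
              Lv a b j (kapL (lmJ L) D a b l w) (update x i g) +
              tr (lmJ L i g) (Lv a b j (kapL (lmJ L) D a b l w) (update x i g')) := by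
            unfold Lv
            simp only [hu]
            rw [ih i _ g g', ih i _ g g', ih i _ g g', ih i _ g g', ih i _ g g']
            simp only [hlm, map_sub, map_smul]
            module
          rw [h1, ih i x g g', hlm, update_of_ne (Ne.symm hij), update_of_ne (Ne.symm hij),
            update_of_ne (Ne.symm hij)]
          simp only [map_sub, map_add]
          rw [D_comm h hij, tr_comm' (h.comm i j hij g (x j)).symm]
          abel
    exact key (List.finRange n)

end Pool.Agent.Lib.MP_b1a3a4_al.MVS.LG.H63
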