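import Pool.Agent.Lib.MP_b1a3a4_al.MVS.LG.Iface

/-!
# Project MVS, part IV, module WSP (12.14): the space `W` of multi-derivations
-/

set_option linter.all false

namespace Pool.Agent.Lib.MP_b1a3a4_al.MVS.LG.H63

open Function

section

variable {n : ℕ} {L : Fin n → Type} [∀ j, Group (L j)]

theorem mder_add {w w' : (∀ j, L j) → L2 (∀ j, L j)} (h : MDer w) (h' : MDer w') :
    MDer (fun y => w y + w' y) := by
  intro j x g k
  simp only [h j x g k, h' j x g k, map_add]
  abel

theorem mder_smul {w : (∀ j, L j) → L2 (∀ j, L j)} (c : ℝ) (h : MDer w) :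
    MDer (fun y => c • w y) := by
  intro j x g k
  simp only [h j x g k, map_smul, smul_add]

theorem mder_zero : MDer (fun _ : (∀ j, L j) => (0 : L2 (∀ j, L j))) := by
  intro j x g k
  simp

variable {r : Fin n → ℕ} (x : ∀ j, Fin (r j) → L j)

/-- `w` is the multi-derivation with the values `u`. -/
def HasW (u : L2 ((∀ j, Fin (r j)) × (∀ j, L j))) (w : (∀ j, L j) → L2 (∀ j, L j)) : Prop :=
  MDer w ∧ ∀ i : (∀ j, Fin (r j)), w (fun j => x j (i j)) = co i u

variable {x}

theorem HasW.add {u u' : L2 ((∀ j, Fin (r j)) × (∀ j, L j))} {w w' : (∀ j, L j) → L2 (∀ j, L j)}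
    (h : HasW x u w) (h' : HasW x u' w') : HasW x (u + u') (fun y => w y + w' y) :=
  ⟨mder_add h.1 h'.1, fun i => by
    show w _ + w' _ = _
    rw [map_add, h.2, h'.2]⟩

theorem HasW.smul {u : L2 ((∀ j, Fin (r j)) × (∀ j, L j))} {w : (∀ j, L j) → L2 (∀ j, L j)}
    (c : ℝ) (h : HasW x u w) : HasW x (c • u) (fun y => c • w y) :=
  ⟨mder_smul c h.1, fun i => by
    show c • w _ = _
    rw [map_smul, h.2]⟩

theorem HasW.zero : HasW x 0 (fun _ => (0 : L2 (∀ j, L j))) :=
  ⟨mder_zero, fun i => by rw [map_zero]⟩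

theorem HasW.sub {u u' : L2 ((∀ j, Fin (r j)) × (∀ j, L j))} {w w' : (∀ j, L j) → L2 (∀ j, L j)}
    (h : HasW x u w) (h' : HasW x u' w') : HasW x (u - u') (fun y => w y - w' y) := by
  have := h.add (h'.smul (-1))
  have e1 : u + (-1 : ℝ) • u' = u - u' := by rw [neg_one_smul, sub_eq_add_neg]
  have e2 : (fun y => w y + (-1 : ℝ) • w' y) = fun y => w y - w' y := by
    funext y; rw [neg_one_smul, sub_eq_add_neg]
  rwa [e1, e2] at this

theorem co_rm (i : (∀ j, Fin (r j))) (t : ∀ j, L j) (u : L2 ((∀ j, Fin (r j)) × (∀ j, L j))) :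
    co i (tr (rmX _ _ t) u) = rm t (co i u) := by
  ext g
  rfl

theorem HasW.rm {u : L2 ((∀ j, Fin (r j)) × (∀ j, L j))} {w : (∀ j, L j) → L2 (∀ j, L j)}
    (t : ∀ j, L j) (h : HasW x u w) : HasW x (tr (rmX _ _ t) u) (fun y => rm t (w y)) := by
  refine ⟨?_, fun i => by
    show LG.rm t (w _) = _
    rw [co_rm, h.2]⟩
  intro j y g k
  simp only [h.1 j y g k, map_add, lm_rm]

theorem orth_zero : Orth x (0 : L2 ((∀ j, Fin (r j)) × (∀ j, L j))) := by
  intro j a ha
  simp

theorem orth_add {u u' : L2 ((∀ j, Fin (r j)) × (∀ j, L j))} (h : Orth x u) (h' : Orth x u') :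
    Orth x (u + u') := by
  intro j a ha
  simp only [map_add, inner_add_left]
  rw [Finset.sum_add_distrib, h j a ha, h' j a ha, add_zero]

theorem orth_smul {u : L2 ((∀ j, Fin (r j)) × (∀ j, L j))} (c : ℝ) (h : Orth x u) :
    Orth x (c • u) := by
  intro j a ha
  simp only [map_smul, real_inner_smul_left]
  rw [← Finset.mul_sum, h j a ha, mul_zero]

theorem orth_rm {u : L2 ((∀ j, Fin (r j)) × (∀ j, L j))} (t : ∀ j, L j) (h : Orth x u) :
    Orth x (tr (rmX _ _ t) u) := by
  intro j a ha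
  have h1 := h j (fun i => rm t⁻¹ (a i)) (fun i k => by simp only [ha])
  rw [← h1]
  apply Finset.sum_congr rfl
  intro i _
  rw [co_rm]
  have e : ∀ ξ : L2 (∀ j, L j), rm t (rm t⁻¹ ξ) = ξ := by
    intro ξ
    ext g
    simp
  have h2 := inner_tr (rmP _ t) (co i u) (lm (Pi.mulSingle j (x j (i j))) (rm t⁻¹ (a i)) -
    rm t⁻¹ (a i))
  rw [← h2, map_sub]
  change inner ℝ (rm t (co i u)) _ = inner ℝ (rm t (co i u)) (rm t (lm _ _) - rm t _)
  rw [← lm_rm, e]

/-- The subspace `W`. -/
def Wsub (x : ∀ j, Fin (r j) → L j) : Submodule ℝ (L2 ((∀ j, Fin (r j)) × (∀ j, L j))) where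
  carrier := {u | (∃ w, HasW x u w) ∧ Orth x u}
  add_mem' := by
    rintro u u' ⟨⟨w, hw⟩, ho⟩ ⟨⟨w', hw'⟩, ho'⟩
    exact ⟨⟨_, hw.add hw'⟩, orth_add ho ho'⟩
  zero_mem' := ⟨⟨_, HasW.zero⟩, orth_zero⟩
  smul_mem' := by
    rintro c u ⟨⟨w, hw⟩, ho⟩
    exact ⟨⟨_, hw.smul c⟩, orth_smul c ho⟩

theorem mem_Wsub {u : L2 ((∀ j, Fin (r j)) × (∀ j, L j))} :
    u ∈ Wsub x ↔ (∃ w, HasW x u w) ∧ Orth x u := Iff.rfl

/-- the bound -/
theorem bound (hE : EvbStatement) (hx : ∀ j, Subgroup.closure (Set.range (x j)) = ⊤)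
    (y : ∀ j, L j) : ∃ C : ℝ, 0 ≤ C ∧ ∀ (u : L2 ((∀ j, Fin (r j)) × (∀ j, L j)))
      (w : (∀ j, L j) → L2 (∀ j, L j)), HasW x u w → ‖w y‖ ≤ C * ‖u‖ := by
  obtain ⟨C, hC, h⟩ := hE n L r x hx y
  refine ⟨C * ∑ i : (∀ j, Fin (r j)), ‖(co i : L2 ((∀ j, Fin (r j)) × (∀ j, L j)) →L[ℝ] _)‖,
    mul_nonneg hC (Finset.sum_nonneg fun i _ => norm_nonneg _), ?_⟩
  intro u w hw
  refine (h w hw.1).trans ?_
  rw [mul_assoc]
  apply mul_le_mul_of_nonneg_left _ hC
  rw [Finset.sum_mul]
  apply Finset.sum_le_sum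
  intro i _
  rw [hw.2]
  exact ContinuousLinearMap.le_opNorm _ _

theorem HasW.unique (hE : EvbStatement) (hx : ∀ j, Subgroup.closure (Set.range (x j)) = ⊤)
    {u : L2 ((∀ j, Fin (r j)) × (∀ j, L j))} {w w' : (∀ j, L j) → L2 (∀ j, L j)}
    (h : HasW x u w) (h' : HasW x u w') : w = w' := by
  funext y
  obtain ⟨C, hC, hb⟩ := bound hE hx y
  have h1 := hb _ _ (h.sub h')
  rw [sub_self, norm_zero, mul_zero] at h1
  exact sub_eq_zero.1 (norm_le_zero_iff.1 h1)

theorem closed_W (hE : EvbStatement) (hx : ∀ j, Subgroup.closure (Set.range (x j)) = ⊤) :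
    IsClosed (Wsub x : Set (L2 ((∀ j, Fin (r j)) × (∀ j, L j)))) := by
  apply IsSeqClosed.isClosed
  intro u u0 hu hlim
  choose w hw using fun k => (hu k).1
  have hcau : ∀ y, CauchySeq (fun k => w k y) := by
    intro y
    obtain ⟨C, hC, hb⟩ := bound hE hx y
    have hcu := hlim.cauchySeq
    rw [Metric.cauchySeq_iff] at hcu ⊢
    intro ε hε
    obtain ⟨N, hN⟩ := hcu (ε / (C + 1)) (by positivity)
    refine ⟨N, fun a ha b hb' => ?_⟩
    have h1 := hb _ _ ((hw a).sub (hw b))
    have h2 := hN a ha b hb'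
    rw [dist_eq_norm] at h2 ⊢
    rw [lt_div_iff₀ (by positivity)] at h2
    calc ‖w a y - w b y‖ ≤ C * ‖u a - u b‖ := h1
      _ ≤ ‖u a - u b‖ * (C + 1) := by nlinarith [norm_nonneg (u a - u b)]
      _ < ε := h2
  choose w0 hw0 using fun y => cauchySeq_tendsto_of_complete (hcau y)
  refine ⟨⟨w0, ?_, ?_⟩, ?_⟩
  · intro j y g k
    have h1 := hw0 (update y j (g * k))
    have h2 := (hw0 (update y j g)).add
      (((lm (Pi.mulSingle j g)).continuous.tendsto _).comp (hw0 (update y j k)))
    refine tendsto_nhds_unique h1 (h2.congr fun m => ?_)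
    exact ((hw m).1 j y g k).symm
  · intro i
    have h1 := hw0 (fun j => x j (i j))
    have h2 := ((co i).continuous.tendsto u0).comp hlim
    refine tendsto_nhds_unique h1 (h2.congr fun m => ?_)
    exact ((hw m).2 i).symm
  · intro j a ha
    have h1 : Filter.Tendsto (fun m => ∑ i, inner ℝ (co i (u m))
        (lm (Pi.mulSingle j (x j (i j))) (a i) - a i)) Filter.atTop (nhds
        (∑ i, inner ℝ (co i u0) (lm (Pi.mulSingle j (x j (i j))) (a i) - a i))) := by
      apply tendsto_finset_sum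
      intro i _
      exact (((co i).continuous.tendsto u0).comp hlim).inner tendsto_const_nhds
    have h2 : ∀ m, ∑ i, inner ℝ (co i (u m))
        (lm (Pi.mulSingle j (x j (i j))) (a i) - a i) = 0 := fun m => (hu m).2 j a ha
    simp only [h2] at h1
    exact (tendsto_nhds_unique h1 tendsto_const_nhds)

/-- a vector with given components -/
theorem exists_co (f : (∀ j, Fin (r j)) → L2 (∀ j, L j)) :
    ∃ u : L2 ((∀ j, Fin (r j)) × (∀ j, L j)), ∀ i, co i u = f i := by
  have hs : Summable (fun p : (∀ j, Fin (r j)) × (∀ j, L j) => (f p.1 p.2) ^ 2) := by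
    rw [summable_prod_of_nonneg (fun _ => sq_nonneg _)]
    exact ⟨fun i => (f i).summable, Summable.of_finite⟩
  refine ⟨⟨fun p => f p.1 p.2, (memL2 _).2 hs⟩, fun i => ?_⟩
  ext g
  rfl

/-- sums over families of indices, one index at a time -/
theorem sum_update (j : Fin n) (F : (∀ j, Fin (r j)) → ℝ)
    (h : ∀ i, ∑ k : Fin (r j), F (update i j k) = 0) : ∑ i, F i = 0 := by
  classical
  let e : (∀ j, Fin (r j)) × Fin (r j) ≃ (∀ j, Fin (r j)) × Fin (r j) :=
    { toFun := fun p => (update p.1 j p.2, p.1 j)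
      invFun := fun p => (update p.1 j p.2, p.1 j)
      left_inv := by rintro ⟨i, k⟩; simp
      right_inv := by rintro ⟨i, k⟩; simp }
  have h1 : ∑ p : (∀ j, Fin (r j)) × Fin (r j), F (update p.1 j p.2) =
      ∑ p : (∀ j, Fin (r j)) × Fin (r j), F p.1 :=
    Fintype.sum_equiv e _ _ (fun p => rfl)
  rw [Fintype.sum_prod_type, Fintype.sum_prod_type] at h1
  simp only [h, Finset.sum_const_zero, Finset.sum_const, Finset.card_univ, Fintype.card_fin,
    nsmul_eq_mul] at h1
  rw [← Finset.mul_sum] at h1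
  rcases Nat.eq_zero_or_pos (r j) with h0 | h0
  · apply Finset.sum_eq_zero
    intro i _
    have := (i j).2
    omega
  · have : (r j : ℝ) ≠ 0 := by exact_mod_cast h0.ne'
    exact (mul_eq_zero.1 h1.symm).resolve_left this

end

theorem wsp (hproj : ProjStatement) (hten : TensStatement) (hE : EvbStatement) :
    WspStatement := by
  intro n L _ r x hx hδ
  obtain ⟨P, hP, hPW, hPe⟩ := hproj.1 (∀ j, L j) ((∀ j, Fin (r j)) × (∀ j, L j)) (rmX _ _)
    (Wsub x) (closed_W hE hx) (by
      rintro t u ⟨⟨w, hw⟩, ho⟩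
      exact ⟨⟨_, hw.rm t⟩, orth_rm t ho⟩)
  have hPm : ∀ u, P u ∈ Wsub x := fun u => (hPW _).1 (hP.idem u)
  choose w hw using fun u => (hPm u).1
  have hadd : ∀ u u', w (u + u') = fun y => w u y + w u' y := by
    intro u u'
    refine HasW.unique hE hx (hw _) ?_
    rw [map_add]
    exact (hw u).add (hw u')
  have hsmul : ∀ (c : ℝ) u, w (c • u) = fun y => c • w u y := by
    intro c u
    refine HasW.unique hE hx (hw _) ?_
    rw [map_smul]
    exact (hw u).smul c
  let Ev : (∀ j, L j) → (L2 ((∀ j, Fin (r j)) × (∀ j, L j)) →L[ℝ] L2 (∀ j, L j)) := fun y =>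
    LinearMap.mkContinuousOfExistsBound
      { toFun := fun u => w u y
        map_add' := fun u u' => by rw [hadd]
        map_smul' := fun c u => by rw [hsmul]; rfl }
      (by
        obtain ⟨C, hC, hb⟩ := bound hE hx y
        refine ⟨C * ‖P‖, fun u => ?_⟩
        refine (hb _ _ (hw u)).trans ?_
        rw [mul_assoc]
        exact mul_le_mul_of_nonneg_left (P.le_opNorm u) hC)
  have hEv : ∀ y u, Ev y u = w u y := fun y u => rfl
  refine ⟨P, Ev, hP, hPe, ?_, ?_, ?_⟩
  · intro y t u
    rw [hEv, hEv]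
    have h1 : w (tr (rmX _ _ t) u) = fun y => rm t (w u y) := by
      refine HasW.unique hE hx (hw _) ?_
      rw [hPe t u]
      exact (hw u).rm t
    rw [h1]
    rfl
  · intro u hu
    have h1 := hw u
    rw [hu] at h1
    exact ⟨h1.1, fun i => h1.2 i, ((hPW u).1 hu).2⟩
  · -- `W` is not zero
    choose δ hder hne horth using hδ
    obtain ⟨T, hT, hT2⟩ := hten n L
    set w0 : (∀ j, L j) → L2 (∀ j, L j) := fun y => T (fun j => δ j (y j)) with hw0
    have hupd : ∀ (j : Fin n) (y : ∀ j, L j) (g : L j),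
        w0 (update y j g) = T (update (fun l => δ l (y l)) j (δ j g)) := by
      intro j y g
      rw [hw0]
      change T _ = T _
      congr 1
      funext l
      by_cases h : l = j
      · subst h; simp
      · simp [update_of_ne h]
    have hTa : ∀ (ξ : ∀ j, L2 (L j)) (j : Fin n) (η η' : L2 (L j)),
        T (update ξ j (η + η')) = T (update ξ j η) + T (update ξ j η') := by
      intro ξ j η η'
      ext k
      rw [lp.coeFn_add, Pi.add_apply, hT, hT, hT]
      rw [← Finset.mul_prod_erase _ _ (Finset.mem_univ j),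
        ← Finset.mul_prod_erase _ _ (Finset.mem_univ j),
        ← Finset.mul_prod_erase _ _ (Finset.mem_univ j)]
      have e : ∀ ζ : L2 (L j), ∏ l ∈ Finset.univ.erase j, (update ξ j ζ) l (k l) =
          ∏ l ∈ Finset.univ.erase j, ξ l (k l) := by
        intro ζ
        apply Finset.prod_congr rfl
        intro l hl
        rw [update_of_ne (Finset.ne_of_mem_erase hl)]
      rw [e, e, e, update_self, update_self, update_self, lp.coeFn_add, Pi.add_apply, add_mul]
    have hTl : ∀ (ξ : ∀ j, L2 (L j)) (j : Fin n) (g : L j) (η : L2 (L j)),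
        T (update ξ j (lm g η)) = lm (Pi.mulSingle j g) (T (update ξ j η)) := by
      intro ξ j g η
      ext k
      rw [lm_apply, hT, hT]
      rw [← Finset.mul_prod_erase _ _ (Finset.mem_univ j),
        ← Finset.mul_prod_erase _ _ (Finset.mem_univ j)]
      congr 1
      · rw [update_self, update_self, lm_apply]
        congr 1
        simp
      · apply Finset.prod_congr rfl
        intro l hl
        have hl' := Finset.ne_of_mem_erase hl
        rw [update_of_ne hl', update_of_ne hl']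
        congr 1
        simp [Pi.mulSingle_eq_of_ne hl']
    have hmd : MDer w0 := by
      intro j y g k
      rw [hupd, hupd, hupd, hder j g k, hTa, hTl]
    obtain ⟨u, hu⟩ := exists_co (fun i : (∀ j, Fin (r j)) => w0 (fun j => x j (i j)))
    have hH : HasW x u w0 := ⟨hmd, fun i => (hu i).symm⟩
    have horthu : Orth x u := by
      intro j a ha
      apply sum_update j
      intro i
      have e : ∀ k : Fin (r j), inner ℝ (co (update i j k) u)
          (lm (Pi.mulSingle j (x j (update i j k j))) (a (update i j k)) - a (update i j k)) =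
          inner ℝ (T (update (fun l => δ l (x l (i l))) j (δ j (x j k))))
            (lm (Pi.mulSingle j (x j k)) (a i) - a i) := by
        intro k
        rw [hu, ha, update_self]
        congr 1
        have := hupd j (fun l => x l (i l)) (x j k)
        rw [← this]
        congr 1
        funext l
        by_cases h : l = j
        · subst h; simp
        · simp [update_of_ne h]
      simp only [e]
      exact hT2 j (r j) (x j) (fun k => δ j (x j k)) (horth j) _ (a i)
    have huW : u ∈ Wsub x := ⟨⟨w0, hH⟩, horthu⟩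
    have hu0 : u ≠ 0 := by
      rintro rfl
      choose g hg using hne
      have hk : ∀ j, ∃ k : L j, (δ j (g j)) k ≠ 0 := by
        intro j
        by_contra hn
        push Not at hn
        apply hg j
        ext k
        exact hn k
      choose k hk using hk
      obtain ⟨C, hC, hb⟩ := bound hE hx g
      have h1 := hb _ _ hH
      rw [norm_zero, mul_zero] at h1
      have h2 : w0 g = 0 := norm_le_zero_iff.1 h1
      have h3 : w0 g k = ∏ j, (δ j (g j)) (k j) := hT _ _
      rw [h2] at h3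
      exact (Finset.prod_ne_zero_iff.2 fun j _ => hk j) h3.symm
    by_contra hn
    push Not at hn
    apply hu0
    have hbv : ∀ (i : ∀ j, Fin (r j)) (g : ∀ j, L j), P (bv (i, g)) = 0 := by
      intro i g
      have h1 : bv (i, g) = tr (rmX (∀ j, Fin (r j)) (∀ j, L j) g⁻¹) (bv (i, 1)) := by
        rw [tr_bv]
        congr 1
        simp [rmX, rmP]
      rw [h1, hPe, hn, map_zero]
    rw [← (hPW u).2 huW]
    ext ⟨i, g⟩
    have h1 := hP.symm u (bv (i, g))
    rw [hbv, inner_zero_right, real_inner_comm, inner_bv] at h1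
    exact h1

end Pool.Agent.Lib.MP_b1a3a4_al.MVS.LG.H63
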